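import Mathlib
import Pool.Agent.W560.HP.Stm4
import Pool.Agent.W560.HP.Gp1

set_option autoImplicit false

/-! Task HP-P1: the parameter space. -/

namespace Pool.Agent.W52.HP.P

open Finset Polynomial
open W560.HP

/-- the variables of the rational function field -/
noncomputable def tv (k ι : Type) [Field k] (i : ι) : FractionRing (MvPolynomial ι k) :=
  algebraMap (MvPolynomial ι k) (FractionRing (MvPolynomial ι k)) (MvPolynomial.X i)

theorem tv_basis (k ι : Type) [Field k] : IsTranscendenceBasis k (tv k ι) := by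
  have h := IsTranscendenceBasis.mvPolynomial ι k
  have : Algebra.IsAlgebraic (MvPolynomial ι k) (FractionRing (MvPolynomial ι k)) :=
    IsLocalization.isAlgebraic _ (nonZeroDivisors (MvPolynomial ι k))
  exact h.algebraMap_comp (A := FractionRing (MvPolynomial ι k))

theorem adjoin_tv (k ι : Type) [Field k] :
    IntermediateField.adjoin k (Set.range (tv k ι)) = ⊤ := by
  rw [eq_top_iff]
  intro a _
  obtain ⟨p, q, hq, rfl⟩ := IsFractionRing.div_surjective (A := MvPolynomial ι k) a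
  have hmem : ∀ p : MvPolynomial ι k, algebraMap _ (FractionRing (MvPolynomial ι k)) p
      ∈ IntermediateField.adjoin k (Set.range (tv k ι)) := by
    intro p
    induction p using MvPolynomial.induction_on with
    | C c =>
      have : algebraMap (MvPolynomial ι k) (FractionRing (MvPolynomial ι k)) (MvPolynomial.C c)
          = algebraMap k (FractionRing (MvPolynomial ι k)) c := rfl
      rw [this]
      exact IntermediateField.algebraMap_mem _ c
    | add p q hp hq => rw [map_add]; exact add_mem hp hq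
    | mul_X p i hp =>
      rw [map_mul]
      exact mul_mem hp (IntermediateField.subset_adjoin _ _ ⟨i, rfl⟩)
  exact div_mem (hmem p) (hmem q)

theorem gp_map {A B : Type} [CommRing A] [CommRing B] (φ : A →+* B) (m : ℕ) (r : ℕ → A)
    (s : ℕ → B) (h : ∀ j, φ (r j) = s j) (j : ℕ) : (g m r j).map φ = g m s j := by
  unfold g
  rw [Polynomial.map_mul, Polynomial.map_pow, Polynomial.map_add, Polynomial.map_add,
    Polynomial.map_X, Polynomial.map_C, Polynomial.map_C, h, h]

/-- the coordinates -/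
noncomputable def uu {Ω : Type} [Field Ω] (m : ℕ) (u0 : Ω) (w : ℕ → Ω) : ℕ → Ω
  | 0 => u0
  | (j + 1) => if j ≤ m + 1 then w j / uu m u0 w j ^ m else 1

theorem uu_ne {Ω : Type} [Field Ω] (m : ℕ) (u0 : Ω) (w : ℕ → Ω) (h0 : u0 ≠ 0)
    (hw : ∀ j ≤ m + 1, w j ≠ 0) (j : ℕ) : uu m u0 w j ≠ 0 := by
  induction j with
  | zero => exact h0
  | succ j ih =>
    rw [uu]
    split_ifs with h
    · exact div_ne_zero (hw j h) (pow_ne_zero m ih)
    · exact one_ne_zero

theorem uu_eq {Ω : Type} [Field Ω] (m : ℕ) (u0 : Ω) (w : ℕ → Ω) (h0 : u0 ≠ 0)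
    (hw : ∀ j ≤ m + 1, w j ≠ 0) (j : ℕ) (hj : j ≤ m + 1) :
    uu m u0 w j ^ m * uu m u0 w (j + 1) = w j := by
  have h1 := uu_ne m u0 w h0 hw j
  rw [uu, if_pos hj]
  field_simp

theorem uu_alg {k Ω : Type} [Field k] [Field Ω] [Algebra k Ω] (L : IntermediateField k Ω)
    (m : ℕ) (hm : 0 < m) (u0 : Ω) (w : ℕ → Ω) (h0 : u0 ≠ 0)
    (hw : ∀ j ≤ m + 1, w j ≠ 0) (hwL : ∀ j ≤ m + 1, w j ∈ L)
    (hT : uu m u0 w (m + 2) ∈ L) (i : ℕ) (hi : i ≤ m + 2) :
    IsAlgebraic L (uu m u0 w (m + 2 - i)) := by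
  induction i with
  | zero => exact isAlgebraic_algebraMap (⟨_, hT⟩ : L)
  | succ i ih =>
    have h1 := ih (by omega)
    obtain ⟨j, hj⟩ : ∃ j, m + 2 - (i + 1) = j := ⟨_, rfl⟩
    have hj' : m + 2 - i = j + 1 := by omega
    rw [hj]
    rw [hj'] at h1
    have h2 := uu_eq m u0 w h0 hw j (by omega)
    have h3 := uu_ne m u0 w h0 hw (j + 1)
    have h4 : uu m u0 w j ^ m = w j * (uu m u0 w (j + 1))⁻¹ := by
      rw [← h2]
      field_simp
    apply IsAlgebraic.of_pow hm
    rw [h4]
    exact (isAlgebraic_algebraMap (⟨w j, hwL j (by omega)⟩ : L)).mul h1.inv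

theorem p1 (hC : S_CHART) (hT : S_TOP) (hS1 : S_SOL1) (hS2 : S_SOL2) (hLift : S_LIFT) : S_P1 := by
  intro k _ _ m s hm
  set Ω := FractionRing (MvPolynomial (Fin (m + 2) ⊕ (Fin 2 ⊕ Fin (s + 1))) k) with hΩ
  set t : (Fin (m + 2) ⊕ (Fin 2 ⊕ Fin (s + 1))) → Ω :=
    tv k (Fin (m + 2) ⊕ (Fin 2 ⊕ Fin (s + 1))) with htd
  have htb : IsTranscendenceBasis k t := tv_basis k _
  have hti : AlgebraicIndependent k t := htb.1
  have hta : IntermediateField.adjoin k (Set.range t) = ⊤ := adjoin_tv k _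
  have htne : ∀ i, t i ≠ 0 := fun i => hti.ne_zero i
  let r : ℕ → Ω := fun j => if h : j < m + 2 then t (Sum.inl ⟨j, h⟩) else 0
  have hr1 : ∀ j (h : j < m + 2), r j = t (Sum.inl ⟨j, h⟩) := fun j h => dif_pos h
  have hr0 : ∀ j, m + 2 ≤ j → r j = 0 := fun j h => dif_neg (by omega)
  have hri : AlgebraicIndependent k (fun j : Fin (m + 2) => r j) := by
    have h1 := hti.comp (Sum.inl : Fin (m + 2) → Fin (m + 2) ⊕ (Fin 2 ⊕ Fin (s + 1)))
      Sum.inl_injective
    have h2 : (fun j : Fin (m + 2) => r j) = t ∘ Sum.inl := by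
      funext j
      exact hr1 j j.2
    rw [h2]
    exact h1
  have hch : ∀ a ≤ m + 1, ∀ b ≤ m + 1, a ≠ b → ∀ t : ℕ → Ω,
      (∀ l < m, ∑ j ∈ range (m + 2), (g m r j).coeff l * t j = 0) → t a = 0 → t b = 0 →
      ∀ j ≤ m + 1, t j = 0 := hC k Ω m r hm hri hr0
  obtain ⟨w, hw, hwa, hwb, hw0⟩ := hS1 Ω m r 0 (m + 1) (by omega) le_rfl (by omega)
    (hch 0 (by omega) (m + 1) le_rfl (by omega)) (t (Sum.inr (Sum.inl 0)))
    (t (Sum.inr (Sum.inl 1)))
  -- the endomorphism
  let c : (Fin (m + 2) ⊕ (Fin 2 ⊕ Fin (s + 1))) → k :=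
    fun i => if i = Sum.inr (Sum.inl 0) then 2 else 1
  have hc : ∀ i, c i ≠ 0 := by
    intro i
    by_cases h : i = Sum.inr (Sum.inl 0)
    · have : c i = 2 := if_pos h
      rw [this]
      exact two_ne_zero
    · have : c i = 1 := if_neg h
      rw [this]
      exact one_ne_zero
  obtain ⟨Ψ, hΨ⟩ := hLift k Ω Ω _ t (fun i => algebraMap k Ω (c i) * t i) hti
    (scale_indep hti c hc) hta
  have hΨ1 : ∀ i, i ≠ Sum.inr (Sum.inl 0) → Ψ (t i) = t i := by
    intro i hi
    have : c i = 1 := if_neg hi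
    rw [hΨ i, this, map_one, one_mul]
  have hΨ2 : Ψ (t (Sum.inr (Sum.inl 0))) = 2 * t (Sum.inr (Sum.inl 0)) := by
    have : c (Sum.inr (Sum.inl 0)) = 2 := if_pos rfl
    rw [hΨ, this]
    congr 1
    exact map_ofNat (algebraMap k Ω) 2
  have hΨr : ∀ j, (Ψ : Ω →+* Ω) (r j) = r j := by
    intro j
    by_cases h : j < m + 2
    · rw [hr1 j h]
      exact hΨ1 _ (by simp)
    · rw [hr0 j (by omega), map_zero]
  have hcon : ∀ l, ∑ j ∈ range (m + 2), (g m r j).coeff l * w j = 0 →
      ∑ j ∈ range (m + 2), (g m r j).coeff l * (Ψ (w j) - w j) = 0 := by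
    intro l hl
    have h1 : ∑ j ∈ range (m + 2), (g m r j).coeff l * Ψ (w j) = 0 := by
      have h2 := congrArg Ψ hl
      rw [map_zero, map_sum] at h2
      rw [← h2]
      refine Finset.sum_congr rfl fun j _ => ?_
      rw [map_mul]
      congr 1
      have h3 := congrArg (fun f : Polynomial Ω => f.coeff l) (gp_map (Ψ : Ω →+* Ω) m r r hΨr j)
      simp only [Polynomial.coeff_map] at h3
      exact h3.symm
    have h3 : ∑ j ∈ range (m + 2), (g m r j).coeff l * (Ψ (w j) - w j) =
        ∑ j ∈ range (m + 2), (g m r j).coeff l * Ψ (w j) -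
          ∑ j ∈ range (m + 2), (g m r j).coeff l * w j := by
      rw [← Finset.sum_sub_distrib]
      refine Finset.sum_congr rfl fun j _ => ?_
      ring
    rw [h3, h1, hl, sub_zero]
  have hp0 : Ψ (w 0) - w 0 ≠ 0 := by
    rw [hwa, hΨ2]
    have : (2 : Ω) * t (Sum.inr (Sum.inl 0)) - t (Sum.inr (Sum.inl 0)) =
        t (Sum.inr (Sum.inl 0)) := by ring
    rw [this]
    exact htne _
  have hpb : Ψ (w (m + 1)) - w (m + 1) = 0 := by
    rw [hwb, hΨ1 _ (by simp), sub_self]
  have hwne : ∀ j ≤ m + 1, w j ≠ 0 := by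
    intro j hj hj0
    by_cases h : j = m + 1
    · rw [h, hwb] at hj0
      exact htne _ hj0
    · have h1 := hch j hj (m + 1) le_rfl h (fun j => Ψ (w j) - w j)
        (fun l hl => hcon l (hw l hl)) (by
          change Ψ (w j) - w j = 0
          rw [hj0, map_zero, sub_zero]) hpb 0 (by omega)
      exact hp0 h1
  have hbne : ∑ j ∈ range (m + 2), (g m r j).coeff m * w j ≠ 0 := by
    intro hB
    have h1 := hT k Ω m r hm hri hr0 (m + 1) le_rfl (fun j => Ψ (w j) - w j)
      (fun l hl => hcon l (by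
        rcases Nat.lt_or_ge l m with h | h
        · exact hw l h
        · have : l = m := by omega
          rw [this]
          exact hB)) hpb 0 (by omega)
    exact hp0 h1
  have hu0 : t (Sum.inr (Sum.inr 0)) ≠ 0 := htne _
  set u : ℕ → Ω := uu m (t (Sum.inr (Sum.inr 0))) w with hu
  let T : Fin (s + 1) → Ω := Fin.cases (u (m + 2)) (fun i => t (Sum.inr (Sum.inr i.succ)))
  have hT0 : T 0 = u (m + 2) := rfl
  have hTs : ∀ i : Fin s, T i.succ = t (Sum.inr (Sum.inr i.succ)) := fun i => rfl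
  refine ⟨Ω, inferInstance, inferInstance, r, w, u, T,
    { r0 := hr0, con := hw, wne := hwne, une := uu_ne m _ w hu0 hwne,
      uw := uu_eq m _ w hu0 hwne, T0 := hT0, bne := hbne, rne := ?_, indr := hri,
      bas := ?_, gen := ?_, pure := ⟨_, inferInstance, t, hti, hta⟩ }⟩
  · intro j hj
    rw [hr1 j (by omega)]
    exact htne _
  · set v : (Fin (m + 2) ⊕ (Fin 2 ⊕ Fin (s + 1))) → Ω :=
      Sum.elim (fun j : Fin (m + 2) => r j) (Sum.elim ![w 0, w (m + 1)] T) with hv
    have hvL : ∀ i, v i ∈ IntermediateField.adjoin k (Set.range v) :=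
      fun i => IntermediateField.subset_adjoin _ _ ⟨i, rfl⟩
    have hrL : ∀ j, r j ∈ IntermediateField.adjoin k (Set.range v) := by
      intro j
      by_cases h : j < m + 2
      · exact hvL (Sum.inl ⟨j, h⟩)
      · rw [hr0 j (by omega)]
        exact zero_mem _
    have hw0L : w 0 ∈ IntermediateField.adjoin k (Set.range v) := hvL (Sum.inr (Sum.inl 0))
    have hw1L : w (m + 1) ∈ IntermediateField.adjoin k (Set.range v) :=
      hvL (Sum.inr (Sum.inl 1))
    have hwL : ∀ j ≤ m + 1, w j ∈ IntermediateField.adjoin k (Set.range v) :=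
      hS2 k Ω _ m r 0 (m + 1) (by omega) le_rfl (by omega) hrL
        (hch 0 (by omega) (m + 1) le_rfl (by omega)) w hw hw0L hw1L
    have hTL : ∀ i, T i ∈ IntermediateField.adjoin k (Set.range v) :=
      fun i => hvL (Sum.inr (Sum.inr i))
    have hu0alg : IsAlgebraic (IntermediateField.adjoin k (Set.range v))
        (t (Sum.inr (Sum.inr 0))) := by
      have h1 := uu_alg (IntermediateField.adjoin k (Set.range v)) m (by omega)
        (t (Sum.inr (Sum.inr 0))) w hu0 hwne hwL (hTL 0) (m + 2) le_rfl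
      rw [Nat.sub_self] at h1
      exact h1
    refine basis_of_span htb v rfl fun x => alg_of_gen _ (Set.range t) hta ?_ x
    rintro _ ⟨i, rfl⟩
    rcases i with j | i | i
    · have h1 : t (Sum.inl j) = r j := (hr1 j j.2).symm
      rw [h1]
      exact isAlgebraic_algebraMap (⟨r j, hrL j⟩ : IntermediateField.adjoin k (Set.range v))
    · fin_cases i
      · have h1 := isAlgebraic_algebraMap (A := Ω)
          (⟨w 0, hw0L⟩ : IntermediateField.adjoin k (Set.range v))
        have h2 : algebraMap (IntermediateField.adjoin k (Set.range v)) Ω ⟨w 0, hw0L⟩ =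
          t (Sum.inr (Sum.inl 0)) := hwa
        rw [h2] at h1
        exact h1
      · have h1 := isAlgebraic_algebraMap (A := Ω)
          (⟨w (m + 1), hw1L⟩ : IntermediateField.adjoin k (Set.range v))
        have h2 : algebraMap (IntermediateField.adjoin k (Set.range v)) Ω ⟨w (m + 1), hw1L⟩ =
          t (Sum.inr (Sum.inl 1)) := hwb
        rw [h2] at h1
        exact h1
    · rcases Fin.eq_zero_or_eq_succ i with h | ⟨i', h⟩
      · rw [h]
        exact hu0alg
      · rw [h]
        exact isAlgebraic_algebraMap (A := Ω)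
          (⟨T i'.succ, hTL i'.succ⟩ : IntermediateField.adjoin k (Set.range v))
  · rw [eq_top_iff, ← hta, IntermediateField.adjoin_le_iff]
    rintro _ ⟨i, rfl⟩
    apply IntermediateField.subset_adjoin
    rcases i with j | i | i
    · exact Or.inl (Or.inl ⟨j, hr1 j j.2⟩)
    · fin_cases i
      · refine Or.inl (Or.inr ?_)
        change t (Sum.inr (Sum.inl 0)) ∈ _
        rw [← hwa]
        simp
      · refine Or.inl (Or.inr ?_)
        change t (Sum.inr (Sum.inl 1)) ∈ _
        rw [← hwb]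
        simp
    · rcases Fin.eq_zero_or_eq_succ i with h | ⟨i', h⟩
      · rw [h]
        refine Or.inl (Or.inr ?_)
        have : u 0 = t (Sum.inr (Sum.inr 0)) := rfl
        rw [← this]
        simp
      · rw [h]
        exact Or.inr ⟨i', rfl⟩

end Pool.Agent.W52.HP.P
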