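import Mathlib
import Pool.Agent.W560.HP.Stm4

set_option autoImplicit false

/-! Task HP-SOL: solving the contact system. -/

namespace Pool.Agent.W52.HP

open Finset Polynomial
open W560.Sep (dt dt_map eq_zero_of_dt)
open W560.HP

theorem dt_ne {F : Type} [Field F] (N : ℕ) (f : ℕ → ℕ → F)
    (h : ∀ v : ℕ → F, (∀ i < N, ∑ j ∈ range N, f i j * v j = 0) → ∀ j < N, v j = 0) :
    dt N f ≠ 0 := by
  intro hdet
  unfold dt at hdet
  obtain ⟨v, hv0, hv⟩ := Matrix.exists_mulVec_eq_zero_iff.2 hdet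
  let w : ℕ → F := fun j => if h : j < N then v ⟨j, h⟩ else 0
  have hw : ∀ j : Fin N, w j = v j := fun j => dif_pos j.2
  have hrow : ∀ l < N, ∑ j ∈ range N, f l j * w j = 0 := by
    intro l hl
    have h1 := congrFun hv ⟨l, hl⟩
    rw [Matrix.mulVec, dotProduct] at h1
    rw [← Fin.sum_univ_eq_sum_range (fun j => f l j * w j)]
    rw [Pi.zero_apply] at h1
    rw [← h1]
    refine Finset.sum_congr rfl fun j _ => ?_
    rw [hw j]
    rfl
  apply hv0
  funext j
  rw [Pi.zero_apply, ← hw j]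
  exact h w hrow j j.2

theorem dt_solve {F : Type} [Field F] (N : ℕ) (f : ℕ → ℕ → F) (h : dt N f ≠ 0) (y : ℕ → F) :
    ∃ w : ℕ → F, (∀ i < N, ∑ j ∈ range N, f i j * w j = y i) ∧ ∀ j, N ≤ j → w j = 0 := by
  unfold dt at h
  set M : Matrix (Fin N) (Fin N) F := Matrix.of fun i j => f i j with hM
  have hu : IsUnit M.det := isUnit_iff_ne_zero.2 h
  set v : Fin N → F := M⁻¹.mulVec (fun i => y i) with hv
  have hMv : M.mulVec v = fun i : Fin N => y i := by
    rw [hv, Matrix.mulVec_mulVec, Matrix.mul_nonsing_inv M hu, Matrix.one_mulVec]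
  let w : ℕ → F := fun j => if h : j < N then v ⟨j, h⟩ else 0
  have hw : ∀ j : Fin N, w j = v j := fun j => dif_pos j.2
  refine ⟨w, ?_, fun j hj => dif_neg (by omega)⟩
  intro l hl
  have h1 := congrFun hMv ⟨l, hl⟩
  rw [Matrix.mulVec, dotProduct] at h1
  rw [← Fin.sum_univ_eq_sum_range (fun j => f l j * w j)]
  change _ = y l at h1
  rw [← h1]
  refine Finset.sum_congr rfl fun j _ => ?_
  rw [hw j]
  rfl

/-- the matrix of the contact system with the two additional rows `t a`, `t b` -/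
noncomputable def NN {A : Type} [CommRing A] (m a b : ℕ) (r : ℕ → A) (l j : ℕ) : A :=
  if l < m then (g m r j).coeff l else
    if l = m then (if j = a then 1 else 0) else (if j = b then 1 else 0)

theorem gs_map {A B : Type} [CommRing A] [CommRing B] (φ : A →+* B) (m : ℕ) (r : ℕ → A)
    (s : ℕ → B) (h : ∀ j, φ (r j) = s j) (j : ℕ) : (g m r j).map φ = g m s j := by
  unfold g
  rw [Polynomial.map_mul, Polynomial.map_pow, Polynomial.map_add, Polynomial.map_add,
    Polynomial.map_X, Polynomial.map_C, Polynomial.map_C, h, h]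

theorem NN_map {A B : Type} [CommRing A] [CommRing B] (φ : A →+* B) (m a b : ℕ) (r : ℕ → A)
    (s : ℕ → B) (h : ∀ j, φ (r j) = s j) (l j : ℕ) : φ (NN m a b r l j) = NN m a b s l j := by
  unfold NN
  split_ifs
  · rw [← gs_map φ m r s h j, Polynomial.coeff_map]
  · exact map_one φ
  · exact map_zero φ
  · exact map_one φ
  · exact map_zero φ

theorem sum_ite_one {A : Type} [CommRing A] (N a : ℕ) (ha : a < N) (t : ℕ → A) :
    ∑ j ∈ range N, (if j = a then (1 : A) else 0) * t j = t a := by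
  rw [Finset.sum_eq_single a]
  · rw [if_pos rfl, one_mul]
  · intro b _ hb
    rw [if_neg hb, zero_mul]
  · intro h
    exact absurd (mem_range.2 ha) h

theorem NN_rows {A : Type} [CommRing A] (m a b : ℕ) (ha : a ≤ m + 1) (hb : b ≤ m + 1)
    (r t : ℕ → A) :
    (∀ l < m, ∑ j ∈ range (m + 2), NN m a b r l j * t j =
      ∑ j ∈ range (m + 2), (g m r j).coeff l * t j) ∧
    ∑ j ∈ range (m + 2), NN m a b r m j * t j = t a ∧
    ∑ j ∈ range (m + 2), NN m a b r (m + 1) j * t j = t b := by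
  refine ⟨fun l hl => ?_, ?_, ?_⟩
  · refine Finset.sum_congr rfl fun j _ => ?_
    unfold NN
    rw [if_pos hl]
  · rw [← sum_ite_one (m + 2) a (by omega) t]
    refine Finset.sum_congr rfl fun j _ => ?_
    unfold NN
    rw [if_neg (by omega), if_pos rfl]
  · rw [← sum_ite_one (m + 2) b (by omega) t]
    refine Finset.sum_congr rfl fun j _ => ?_
    unfold NN
    rw [if_neg (by omega), if_neg (by omega)]

theorem NN_ne {F : Type} [Field F] (m a b : ℕ) (ha : a ≤ m + 1) (hb : b ≤ m + 1) (r : ℕ → F)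
    (h : ∀ t : ℕ → F, (∀ l < m, ∑ j ∈ range (m + 2), (g m r j).coeff l * t j = 0) → t a = 0 →
      t b = 0 → ∀ j ≤ m + 1, t j = 0) : dt (m + 2) (NN m a b r) ≠ 0 := by
  apply dt_ne
  intro v hv j hj
  obtain ⟨h1, h2, h3⟩ := NN_rows m a b ha hb r v
  refine h v (fun l hl => ?_) ?_ ?_ j (by omega)
  · rw [← h1 l hl]
    exact hv l (by omega)
  · rw [← h2]
    exact hv m (by omega)
  · rw [← h3]
    exact hv (m + 1) (by omega)

theorem NN_sol {F : Type} [Field F] (m a b : ℕ) (ha : a ≤ m + 1) (hb : b ≤ m + 1) (r : ℕ → F)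
    (h : dt (m + 2) (NN m a b r) ≠ 0) (α β : F) :
    ∃ w : ℕ → F, (∀ l < m, ∑ j ∈ range (m + 2), (g m r j).coeff l * w j = 0) ∧
      w a = α ∧ w b = β ∧ ∀ j, m + 2 ≤ j → w j = 0 := by
  obtain ⟨w, hw, hw0⟩ := dt_solve (m + 2) (NN m a b r) h
    (fun l => if l < m then 0 else if l = m then α else β)
  obtain ⟨h1, h2, h3⟩ := NN_rows m a b ha hb r w
  refine ⟨w, fun l hl => ?_, ?_, ?_, hw0⟩
  · rw [← h1 l hl, hw l (by omega)]
    exact if_pos hl
  · rw [← h2, hw m (by omega)]
    rw [if_neg (by omega), if_pos rfl]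
  · rw [← h3, hw (m + 1) (by omega)]
    rw [if_neg (by omega), if_neg (by omega)]

theorem sol1 : S_SOL1 := by
  intro Ω _ m r a b ha hb _ h α β
  exact NN_sol m a b ha hb r (NN_ne m a b ha hb r h) α β

theorem sol2 : S_SOL2 := by
  intro k Ω _ _ _ L m r a b ha hb _ hr h w hw hwa hwb
  have hne := NN_ne m a b ha hb r h
  let s : ℕ → L := fun j => ⟨r j, hr j⟩
  have hs : ∀ j, (algebraMap L Ω) (s j) = r j := fun j => rfl
  have hneL : dt (m + 2) (NN m a b s) ≠ 0 := by
    intro h0
    apply hne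
    have h1 := dt_map (algebraMap L Ω) (m + 2) (NN m a b s)
    rw [h0, map_zero] at h1
    rw [h1]
    congr 1
    funext l j
    exact (NN_map _ m a b s r hs l j).symm
  obtain ⟨v, hv, hva, hvb, _⟩ := NN_sol m a b ha hb s hneL ⟨w a, hwa⟩ ⟨w b, hwb⟩
  have hdiff := h (fun j => w j - algebraMap L Ω (v j)) (by
    intro l hl
    have h1 : ∑ j ∈ range (m + 2), (g m r j).coeff l * algebraMap L Ω (v j) = 0 := by
      have h2 := congrArg (algebraMap L Ω) (hv l hl)
      rw [map_zero, map_sum] at h2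
      rw [← h2]
      refine Finset.sum_congr rfl fun j _ => ?_
      rw [map_mul, ← gs_map (algebraMap L Ω) m s r hs j, Polynomial.coeff_map]
    have h3 : ∑ j ∈ range (m + 2), (g m r j).coeff l * (w j - algebraMap L Ω (v j)) =
        ∑ j ∈ range (m + 2), (g m r j).coeff l * w j -
          ∑ j ∈ range (m + 2), (g m r j).coeff l * algebraMap L Ω (v j) := by
      rw [← Finset.sum_sub_distrib]
      refine Finset.sum_congr rfl fun j _ => ?_
      ring
    rw [h3, h1, hw l hl, sub_zero]) (by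
      change w a - algebraMap L Ω (v a) = 0
      rw [hva]
      exact sub_self _) (by
      change w b - algebraMap L Ω (v b) = 0
      rw [hvb]
      exact sub_self _)
  intro j hj
  have h4 := sub_eq_zero.1 (hdiff j hj)
  rw [h4]
  exact (v j).2

end Pool.Agent.W52.HP
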