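import Mathlib
import Pool.Agent.W560.HP.Stm
import Pool.Agent.W560.HP.Stm3

set_option autoImplicit false

/-! Task HP-TOP: the first `m + 1` rows at generic nodes. -/

namespace Pool.Agent.W52.HP

open Finset Polynomial
open W560.Sep (dt dt_map eq_zero_of_dt)
open W560.HP

/-- the matrix of the contact system, with the additional row `t a` -/
noncomputable def MM {A : Type} [CommRing A] (m a : ℕ) (r : ℕ → A) (l j : ℕ) : A :=
  if l ≤ m then (g m r j).coeff l else if j = a then 1 else 0

theorem g_map {A B : Type} [CommRing A] [CommRing B] (φ : A →+* B) (m : ℕ) (r : ℕ → A)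
    (s : ℕ → B) (h : ∀ j, φ (r j) = s j) (j : ℕ) : (g m r j).map φ = g m s j := by
  unfold g
  rw [Polynomial.map_mul, Polynomial.map_pow, Polynomial.map_add, Polynomial.map_add,
    Polynomial.map_X, Polynomial.map_C, Polynomial.map_C, h, h]

theorem MM_map {A B : Type} [CommRing A] [CommRing B] (φ : A →+* B) (m a : ℕ) (r : ℕ → A)
    (s : ℕ → B) (h : ∀ j, φ (r j) = s j) (l j : ℕ) : φ (MM m a r l j) = MM m a s l j := by
  unfold MM
  split_ifs
  · rw [← g_map φ m r s h j, Polynomial.coeff_map]
  · exact map_one φ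
  · exact map_zero φ

theorem MM_sum {A : Type} [CommRing A] (m a : ℕ) (ha : a ≤ m + 1) (r t : ℕ → A) :
    ∑ j ∈ range (m + 2), MM m a r (m + 1) j * t j = t a := by
  rw [Finset.sum_eq_single a]
  · unfold MM
    rw [if_neg (by omega), if_pos rfl, one_mul]
  · intro b _ hb
    unfold MM
    rw [if_neg (by omega), if_neg hb, zero_mul]
  · intro h
    exfalso
    apply h
    rw [mem_range]
    omega

theorem dt_ne_K (K : Type) [Field K] (m a : ℕ) (ha : a ≤ m + 1) (σ : ℕ → ℕ) (r τ : ℕ → K)
    (hinj : ∀ p ≤ m, ∀ q ≤ m, σ p = σ q → p = q) (hσ : ∀ p ≤ m, σ p ≤ m + 1 ∧ σ p ≠ a)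
    (hL : Lev m m σ r τ) : dt (m + 2) (MM m a r) ≠ 0 := by
  intro hdet
  unfold dt at hdet
  obtain ⟨v, hv0, hv⟩ := Matrix.exists_mulVec_eq_zero_iff.2 hdet
  let w : ℕ → K := fun j => if h : j < m + 2 then v ⟨j, h⟩ else 0
  have hw : ∀ j : Fin (m + 2), w j = v j := fun j => dif_pos j.2
  have hrow : ∀ l, l < m + 2 → ∑ j ∈ range (m + 2), MM m a r l j * w j = 0 := by
    intro l hl
    have h1 := congrFun hv ⟨l, hl⟩
    rw [Matrix.mulVec, dotProduct] at h1
    rw [← Fin.sum_univ_eq_sum_range (fun j => MM m a r l j * w j)]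
    rw [Pi.zero_apply] at h1
    rw [← h1]
    refine Finset.sum_congr rfl fun j _ => ?_
    rw [hw j]
    rfl
  have hwa : w a = 0 := by
    rw [← MM_sum m a ha r w]
    exact hrow (m + 1) (by omega)
  have himg : (range (m + 2)).erase a = (range (m + 1)).image σ := by
    symm
    apply Finset.eq_of_subset_of_card_le
    · intro x hx
      rw [mem_image] at hx
      obtain ⟨i, hi, rfl⟩ := hx
      rw [mem_range] at hi
      have := hσ i (by omega)
      rw [mem_erase, mem_range]
      exact ⟨this.2, by omega⟩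
    · rw [Finset.card_erase_of_mem (by rw [mem_range]; omega), card_range,
        Finset.card_image_of_injOn, card_range]
      · omega
      · intro x hx y hy hxy
        rw [mem_coe, mem_range] at hx hy
        exact hinj x (by omega) y (by omega) hxy
  have hz : ∀ i < m + 1, w (σ i) = 0 := by
    refine eq_zero_of_dt (m + 1) (fun l i => (g m r (σ i)).coeff l) hL.p2 (fun i => w (σ i)) ?_
    intro l hl
    have h1 := hrow l (by omega)
    rw [← Finset.add_sum_erase (range (m + 2)) _ (a := a) (by rw [mem_range]; omega), hwa,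
      mul_zero, zero_add, himg, Finset.sum_image] at h1
    · rw [← h1]
      refine Finset.sum_congr rfl fun i _ => ?_
      unfold MM
      rw [if_pos (by omega)]
    · intro x hx y hy hxy
      rw [mem_coe, mem_range] at hx hy
      exact hinj x (by omega) y (by omega) hxy
  apply hv0
  funext j
  rw [Pi.zero_apply, ← hw j]
  by_cases hja : (j : ℕ) = a
  · rw [hja, hwa]
  · have : (j : ℕ) ∈ (range (m + 2)).erase a := by
      rw [mem_erase, mem_range]
      exact ⟨hja, j.2⟩
    rw [himg, mem_image] at this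
    obtain ⟨i, hi, hij⟩ := this
    rw [← hij]
    exact hz i (mem_range.1 hi)

theorem top (hL : S_LEV) : S_TOP := by
  intro k Ω _ _ _ _ m r hm hr hr0 a ha t ht hta
  obtain ⟨K, _, _, σ, rK, τK, hinj, hσ, hlev⟩ := hL k m a hm ha
  let x : ℕ → MvPolynomial (Fin (m + 2)) k :=
    fun j => if h : j < m + 2 then MvPolynomial.X ⟨j, h⟩ else 0
  have hxK : ∀ j, (MvPolynomial.aeval (fun j : Fin (m + 2) => rK j) :
      MvPolynomial (Fin (m + 2)) k →ₐ[k] K) (x j) = rK j := by
    intro j
    by_cases h : j < m + 2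
    · have : x j = MvPolynomial.X ⟨j, h⟩ := dif_pos h
      rw [this, MvPolynomial.aeval_X]
    · have : x j = 0 := dif_neg h
      rw [this, map_zero]
      symm
      apply hlev.r0
      intro i hi hij
      have := hσ i hi
      omega
  have hxΩ : ∀ j, (MvPolynomial.aeval (fun j : Fin (m + 2) => r j) :
      MvPolynomial (Fin (m + 2)) k →ₐ[k] Ω) (x j) = r j := by
    intro j
    by_cases h : j < m + 2
    · have : x j = MvPolynomial.X ⟨j, h⟩ := dif_pos h
      rw [this, MvPolynomial.aeval_X]
    · have : x j = 0 := dif_neg h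
      rw [this, map_zero, hr0 j (by omega)]
  have hP : dt (m + 2) (MM m a x) ≠ 0 := by
    intro h0
    apply dt_ne_K K m a ha σ rK τK hinj hσ hlev
    have h1 := dt_map ((MvPolynomial.aeval (fun j : Fin (m + 2) => rK j) :
      MvPolynomial (Fin (m + 2)) k →ₐ[k] K) : MvPolynomial (Fin (m + 2)) k →+* K) (m + 2)
      (MM m a x)
    rw [h0, map_zero] at h1
    rw [h1]
    congr 1
    funext l j
    exact (MM_map _ m a x rK hxK l j).symm
  have hΩ : dt (m + 2) (MM m a r) ≠ 0 := by
    have h1 := dt_map ((MvPolynomial.aeval (fun j : Fin (m + 2) => r j) :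
      MvPolynomial (Fin (m + 2)) k →ₐ[k] Ω) : MvPolynomial (Fin (m + 2)) k →+* Ω) (m + 2)
      (MM m a x)
    have h2 : (fun l j => ((MvPolynomial.aeval (fun j : Fin (m + 2) => r j) :
      MvPolynomial (Fin (m + 2)) k →ₐ[k] Ω) : MvPolynomial (Fin (m + 2)) k →+* Ω)
      (MM m a x l j)) = MM m a r := by
      funext l j
      exact MM_map _ m a x r hxΩ l j
    rw [h2] at h1
    rw [← h1]
    intro h3
    apply hP
    apply hr
    rw [map_zero]
    exact h3
  have hfin := eq_zero_of_dt (m + 2) (MM m a r) hΩ t (by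
    intro l hl
    by_cases hlm : l ≤ m
    · rw [← ht l hlm]
      refine Finset.sum_congr rfl fun j _ => ?_
      unfold MM
      rw [if_pos hlm]
    · have : l = m + 1 := by omega
      rw [this, MM_sum m a ha r t, hta])
  intro j hj
  exact hfin j (by omega)

end Pool.Agent.W52.HP
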